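import Pool.Agent.Helper6.MONO.Stmts2
import Pool.Agent.Helper53.MONO.GRW

set_option autoImplicit false

/-! MP_c75db0_gt: monotonicity up to constants from a region, with exponential gain. -/

noncomputable section
namespace Pool.Agent.Helper6.MONO.S

open Filter Topology

/-- the inductive claim -/
def GrwC2 (p q r : ℕ) (s0 s1 dl : ℝ) {J : Type} (At : J → Fin 3 × Fin 3 × Fin 3 → Prop)
    (fl : J → Bool) (pt : J → ℝ) (Bx : J → RSt → Prop) (B : ℝ) (bs : List (Bool × ℕ)) : Prop :=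
  ∀ (c d e : Fin 3) (v : Bool) (Z : ℝ → RV), Dist c d e → okPath p q r v (c, d, e) bs →
  (∀ t, s0 ≤ t → t ≤ s1 → NR t (kk p q r d e) (kk p q r c d) (kk p q r c e) (Z t)) →
  (∀ s, s0 ≤ s → s ≤ s1 → ∃ (z : RSt) (yd : ℝ) (j : J), At j (c, d, e) ∧
    (fl j = true → v = true) ∧ Bx j z ∧ Mov Z s z yd) →
  ∀ s, s0 ≤ s → s ≤ s1 → ∀ (z : RSt) (yd : ℝ) (j : J), At j (c, d, e) →
    (fl j = true → v = true) → Bx j z → Mov Z s z yd →
    nP p q r s (c, d, e) (Z s) bs ∧ 0 < fP p q r s (c, d, e) (Z s) bs ∧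
    (|(zP p q r s (c, d, e) (Z s) bs).a| ≤ B ∧ |(zP p q r s (c, d, e) (Z s) bs).b| ≤ B ∧
      |(zP p q r s (c, d, e) (Z s) bs).be| ≤ B ∧ |(zP p q r s (c, d, e) (Z s) bs).yr| ≤ B) ∧
    ∃ D, HasDerivAt (fun t => fP p q r t (c, d, e) (Z t) bs)
      (D * fP p q r s (c, d, e) (Z s) bs) s ∧ D * (1 + s) ≤ pt j + B - dl * bs.length

/-- one step at one parameter -/
theorem grw2_step (hE1 : ST_EQ true) (hE0 : ST_EQ false) (hDER : ST_DER) (hYD : ST_YD)
    (p q r : ℕ) (hp : 3 ≤ p) (hq : 3 ≤ q) (hr : 3 ≤ r) (s0 s1 dl : ℝ) (h0 : 0 ≤ s0) (h01 : s0 < s1)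
    {J : Type} {At : J → Fin 3 × Fin 3 × Fin 3 → Prop} {fl : J → Bool} {pt : J → ℝ}
    {Bx : J → RSt → Prop}
    (hstep : ∀ (j : J) (c d e : Fin 3), Dist c d e → At j (c, d, e) → ∀ (ε : Bool) (m : ℕ),
      allowed (mm p q r d e) (fl j) ε m → ∀ (s : ℝ) (z : RSt), s0 ≤ s → s ≤ s1 → Bx j z →
      (r_stp s ε (ev2 m) z (kk p q r d e) (kk p q r c d) (kk p q r c e) (Rb (mm p q r d e) m)).ck ∧
      ∃ j' : J, At j' (nx (ev2 m) c d e) ∧
        (fl j' = true → vnext (mm p q r d e) (fl j) ε m = true) ∧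
        Bx j' (r_stp s ε (ev2 m) z (kk p q r d e) (kk p q r c d) (kk p q r c e)
          (Rb (mm p q r d e) m)).st ∧
        (r_stp s ε (ev2 m) z (kk p q r d e) (kk p q r c d) (kk p q r c e)
          (Rb (mm p q r d e) m)).L + (pt j' - pt j) ≤ -dl)
    {c d e : Fin 3} {v : Bool} {Z : ℝ → RV} (hD : Dist c d e) {ε : Bool} {m : ℕ}
    (hal : allowed (mm p q r d e) v ε m)
    (hNR : ∀ t, s0 ≤ t → t ≤ s1 → NR t (kk p q r d e) (kk p q r c d) (kk p q r c e) (Z t))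
    {s : ℝ} (hs0 : s0 ≤ s) (hs1 : s ≤ s1) {z : RSt} {yd : ℝ} {j : J} (hA : At j (c, d, e))
    (hf : fl j = true → v = true) (hB : Bx j z) (hM : Mov Z s z yd) :
    stepN p q r s c d e ε m (Z s) ≠ 0 ∧ 0 < stepF p q r s c d e ε m (Z s) ∧
    ∃ (z' : RSt) (yd' : ℝ) (j' : J) (D : ℝ), At j' (nx (ev2 m) c d e) ∧
      (fl j' = true → vnext (mm p q r d e) v ε m = true) ∧ Bx j' z' ∧
      Mov (fun t => stepV p q r t c d e ε m (Z t)) s z' yd' ∧
      HasDerivAt (fun t => stepF p q r t c d e ε m (Z t))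
        (D * stepF p q r s c d e ε m (Z s)) s ∧ D * (1 + s) + (pt j' - pt j) ≤ -dl := by
  have hs : 0 ≤ s := h0.trans hs0
  have h1s : 0 < 1 + s := by linarith
  obtain ⟨hk, hk2⟩ := grw_kk p q r hp hq hr d e hD.2.1
  obtain ⟨hhd, hhd2⟩ := grw_kk p q r hp hq hr c d hD.1
  obtain ⟨hhe, hhe2⟩ := grw_kk p q r hp hq hr c e hD.2.2.symm
  obtain ⟨hal', hvn⟩ := grw_flag hal hf
  obtain ⟨hck, j', hA', hf', hB', hL'⟩ := hstep j c d e hD hA ε m hal' s z hs0 hs1 hB
  have hE : ST_EQ (ev2 m) := by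
    cases ev2 m
    exacts [hE0, hE1]
  have hNRs := hNR s hs0 hs1
  rw [hM.val] at hNRs
  obtain ⟨hDr, hn, hden, hval, had, hbd, hbed, hL⟩ :=
    hE s (kk p q r d e) (kk p q r c d) (kk p q r c e) (Rb (mm p q r d e) m) ε z hs hk hhd hhe
      hNRs hck
  have hyd := hYD s0 s1 s (kk p q r d e) (kk p q r c d) (kk p q r c e) Z z yd h01 hs0 hs1 h0 hM
    hNR (ne_of_gt hden)
  obtain ⟨ha', hb', hbe', hyr', hfac⟩ := hDER s (kk p q r d e) (kk p q r c d) (kk p q r c e)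
    (Rb (mm p q r d e) m) ε (ev2 m) Z z yd hs hk hhd hhe hM hn
  have hW : 0 < Rb (mm p q r d e) m * Rb (mm p q r d e) m + SbP (kk p q r d e) := by
    have := grw_Sb hk hk2
    nlinarith [mul_self_nonneg (Rb (mm p q r d e) m)]
  obtain ⟨hF, hlog⟩ := hfac (mul_pos hW hW)
  have hcont := grw_cont s (kk p q r d e) (kk p q r c d) (kk p q r c e) (Rb (mm p q r d e) m) ε
    (ev2 m) Z hs hk hhd hhe hW hM.da.continuousAt hM.db.continuousAt hM.dbe.continuousAt
    hM.dyr.continuousAt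
  have hFs : 0 < fac s ε (ev2 m) (Z s) (kk p q r d e) (kk p q r c d) (kk p q r c e)
      (Rb (mm p q r d e) m) := by
    rw [hM.val]
    exact hF
  have hFD := grw_log hcont hFs hlog
  refine ⟨?_, hFs, (r_stp s ε (ev2 m) z (kk p q r d e) (kk p q r c d) (kk p q r c e)
    (Rb (mm p q r d e) m)).st, dyr s ε (ev2 m) z (kk p q r d e) (kk p q r c d) (kk p q r c e)
    (Rb (mm p q r d e) m) yd, j', _, hA', fun h => hvn (hf' h), hB', ?_, hFD, ?_⟩
  · unfold stepN
    rw [hM.val]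
    exact ne_of_gt hn
  · constructor
    · rw [hval, ← hM.val]
      rfl
    · rw [had, ← hyd]
      exact ha'
    · rw [hbd, ← hyd]
      exact hb'
    · rw [hbed, ← hyd]
      exact hbe'
    · exact hyr'
  · rw [div_mul_cancel₀ _ (ne_of_gt h1s), hyd, ← hL]
    exact hL'

theorem grw2_ind (hNRI : ST_NRI) (hE1 : ST_EQ true) (hE0 : ST_EQ false) (hDER : ST_DER)
    (hYD : ST_YD)
    (p q r : ℕ) (hp : 3 ≤ p) (hq : 3 ≤ q) (hr : 3 ≤ r) (s0 s1 dl : ℝ) (h0 : 0 ≤ s0) (h01 : s0 < s1)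
    {J : Type} {At : J → Fin 3 × Fin 3 × Fin 3 → Prop} {fl : J → Bool} {pt : J → ℝ}
    {Bx : J → RSt → Prop} {B : ℝ} (hb1 : ∀ j, |pt j| ≤ B)
    (hb2 : ∀ j z, Bx j z → |z.a| ≤ B ∧ |z.b| ≤ B ∧ |z.be| ≤ B ∧ |z.yr| ≤ B)
    (hstep : ∀ (j : J) (c d e : Fin 3), Dist c d e → At j (c, d, e) → ∀ (ε : Bool) (m : ℕ),
      allowed (mm p q r d e) (fl j) ε m → ∀ (s : ℝ) (z : RSt), s0 ≤ s → s ≤ s1 → Bx j z →
      (r_stp s ε (ev2 m) z (kk p q r d e) (kk p q r c d) (kk p q r c e) (Rb (mm p q r d e) m)).ck ∧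
      ∃ j' : J, At j' (nx (ev2 m) c d e) ∧
        (fl j' = true → vnext (mm p q r d e) (fl j) ε m = true) ∧
        Bx j' (r_stp s ε (ev2 m) z (kk p q r d e) (kk p q r c d) (kk p q r c e)
          (Rb (mm p q r d e) m)).st ∧
        (r_stp s ε (ev2 m) z (kk p q r d e) (kk p q r c d) (kk p q r c e)
          (Rb (mm p q r d e) m)).L + (pt j' - pt j) ≤ -dl)
    (bs : List (Bool × ℕ)) : GrwC2 p q r s0 s1 dl At fl pt Bx B bs := by
  induction bs with
  | nil =>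
    intro c d e v Z hD hok hNR hex s hs0 hs1 z yd j hA hf hB hM
    refine ⟨trivial, one_pos, ?_, 0, ?_, ?_⟩
    · have := hb2 j z hB
      simp only [zP]
      rw [hM.val]
      exact this
    · simp only [fP, zero_mul]
      exact hasDerivAt_const _ _
    · have := (abs_le.1 (hb1 j)).1
      simp only [List.length_nil, Nat.cast_zero, mul_zero, zero_mul]
      linarith
  | cons b bs ih =>
    obtain ⟨ε, m⟩ := b
    intro c d e v Z hD hok hNR hex s hs0 hs1 z yd j hA hf hB hM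
    obtain ⟨hal, hok'⟩ := hok
    rcases hnx : nx (ev2 m) c d e with ⟨c', d', e'⟩
    obtain ⟨hD', hk', hhd', hhe'⟩ := grw_nx p q r (ev2 m) c d e c' d' e' hD hnx
    have key : ∀ t, s0 ≤ t → t ≤ s1 → ∀ (z : RSt) (yd : ℝ) (j : J), At j (c, d, e) →
        (fl j = true → v = true) → Bx j z → Mov Z t z yd → _ :=
      fun t ht0 ht1 z yd j hA hf hB hM =>
        grw2_step hE1 hE0 hDER hYD p q r hp hq hr s0 s1 dl h0 h01 hstep hD hal hNR ht0 ht1 hA hf hB hM
    have hNR' : ∀ t, s0 ≤ t → t ≤ s1 → NR t (kk p q r d' e') (kk p q r c' d') (kk p q r c' e')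
        (stepV p q r t c d e ε m (Z t)) := by
      intro t ht0 ht1
      obtain ⟨z1, yd1, j1, hA1, hf1, hB1, hM1⟩ := hex t ht0 ht1
      have h1 := (key t ht0 ht1 z1 yd1 j1 hA1 hf1 hB1 hM1).1
      rw [hk', hhd', hhe']
      exact hNRI t (kk p q r d e) (kk p q r c d) (kk p q r c e) (Rb (mm p q r d e) m) ε (ev2 m)
        (Z t) (h0.trans ht0) (grw_kk p q r hp hq hr d e hD.2.1).1
        (grw_kk p q r hp hq hr c d hD.1).1 (grw_kk p q r hp hq hr c e hD.2.2.symm).1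
        (hNR t ht0 ht1) h1
    have hex' : ∀ t, s0 ≤ t → t ≤ s1 → ∃ (z : RSt) (yd : ℝ) (j : J), At j (c', d', e') ∧
        (fl j = true → vnext (mm p q r d e) v ε m = true) ∧ Bx j z ∧
        Mov (fun t => stepV p q r t c d e ε m (Z t)) t z yd := by
      intro t ht0 ht1
      obtain ⟨z1, yd1, j1, hA1, hf1, hB1, hM1⟩ := hex t ht0 ht1
      obtain ⟨-, -, z2, yd2, j2, D2, hA2, hf2, hB2, hM2, -, -⟩ :=
        key t ht0 ht1 z1 yd1 j1 hA1 hf1 hB1 hM1
      rw [hnx] at hA2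
      exact ⟨z2, yd2, j2, hA2, hf2, hB2, hM2⟩
    obtain ⟨hN, hF, z2, yd2, j2, D2, hA2, hf2, hB2, hM2, hFD, hFL⟩ :=
      key s hs0 hs1 z yd j hA hf hB hM
    rw [hnx] at hA2 hok'
    obtain ⟨i1, i2, i3, D3, i4, i5⟩ := ih c' d' e' (vnext (mm p q r d e) v ε m)
      (fun t => stepV p q r t c d e ε m (Z t)) hD' hok' hNR' hex' s hs0 hs1 z2 yd2 j2 hA2 hf2 hB2
      hM2
    refine ⟨?_, ?_, ?_, D2 + D3, ?_, ?_⟩
    · simp only [nP, hnx]
      exact ⟨hN, i1⟩
    · simp only [fP, hnx]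
      exact mul_pos hF i2
    · simp only [zP, hnx]
      exact i3
    · simp only [fP, hnx]
      have h3 := hFD.mul i4
      have h4 : D2 * stepF p q r s c d e ε m (Z s) *
            fP p q r s (c', d', e') (stepV p q r s c d e ε m (Z s)) bs +
          stepF p q r s c d e ε m (Z s) *
            (D3 * fP p q r s (c', d', e') (stepV p q r s c d e ε m (Z s)) bs) =
          (D2 + D3) * (stepF p q r s c d e ε m (Z s) *
            fP p q r s (c', d', e') (stepV p q r s c d e ε m (Z s)) bs) := by ring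
      rw [← h4]
      exact h3
    · rw [add_mul, List.length_cons, Nat.cast_add, Nat.cast_one, mul_add, mul_one]
      linarith

theorem st_GRW : ST_GRW := by
  intro hNRI hE1 hE0 hDER hYD hY0 p q r hp hq hr s0 s1 dl h0 h01 h12 hdl hR
  obtain ⟨J, At, fl, pt, Bx, B, hb1, hb2, hst, hstep⟩ := hR
  have hB0 : 0 ≤ B := by
    obtain ⟨j, -⟩ := hst 0 1 2 ⟨by decide, by decide, by decide⟩ (3 / 5) (Or.inl rfl)
    exact (abs_nonneg _).trans (hb1 j)
  refine ⟨Real.exp (2 * B * (s1 - s0)) + B + 1, dl / 3, by positivity, by positivity, ?_⟩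
  intro c d e hD a0 ha0 bs hok
  obtain ⟨E, hE⟩ : ∃ E : ℝ, E = 2 * B - dl / 3 * bs.length := ⟨_, rfl⟩
  obtain ⟨j, hA, hfl, hj⟩ := hst c d e hD a0 ha0
  obtain ⟨hk, hk2⟩ := grw_kk p q r hp hq hr d e hD.2.1
  obtain ⟨hhd, hhd2⟩ := grw_kk p q r hp hq hr c d hD.1
  obtain ⟨hhe, hhe2⟩ := grw_kk p q r hp hq hr c e hD.2.2.symm
  have hY : ∀ s, s0 ≤ s → s ≤ s1 → NR s (kk p q r d e) (kk p q r c d) (kk p q r c e)
      (zst p q r s (c, d, e) a0) ∧
      ∃ yd : ℝ, HasDerivAt (fun t => y0 t (kk p q r d e) (kk p q r c d) (kk p q r c e) a0) yd s :=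
    fun s hs0 hs1 => hY0 s (kk p q r d e) (kk p q r c d) (kk p q r c e) a0 (h0.trans hs0) hk hk2.le
      hhd hhd2.le hhe (hj s hs0 hs1).1
  have hMov : ∀ s, s0 ≤ s → s ≤ s1 → ∃ yd : ℝ, Mov (fun t => zst p q r t (c, d, e) a0) s
      ⟨a0, 0, 0, y0 s (kk p q r d e) (kk p q r c d) (kk p q r c e) a0, 0, 0, 0⟩ yd := by
    intro s hs0 hs1
    obtain ⟨-, yd, hyd⟩ := hY s hs0 hs1
    have h1s : (0 : ℝ) < 1 + s := by linarith
    refine ⟨yd * (1 + s), rfl, ?_, ?_, ?_, ?_⟩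
    · rw [zero_div]
      exact hasDerivAt_const _ _
    · rw [zero_div]
      exact hasDerivAt_const _ _
    · rw [zero_div]
      exact hasDerivAt_const _ _
    · rw [mul_div_cancel_right₀ _ (ne_of_gt h1s)]
      exact hyd
  have hind := grw2_ind hNRI hE1 hE0 hDER hYD p q r hp hq hr s0 s1 dl h0 h01 hb1 hb2 hstep bs c d e
    false (fun t => zst p q r t (c, d, e) a0) hD hok (fun t ht0 ht1 => (hY t ht0 ht1).1)
    (fun t ht0 ht1 => by
      obtain ⟨yd, hyd⟩ := hMov t ht0 ht1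
      exact ⟨_, yd, j, hA, fun h => absurd (hfl.symm.trans h) (by simp), (hj t ht0 ht1).2, hyd⟩)
  have hmain : ∀ s, s0 ≤ s → s ≤ s1 →
      nP p q r s (c, d, e) (zst p q r s (c, d, e) a0) bs ∧
      0 < fP p q r s (c, d, e) (zst p q r s (c, d, e) a0) bs ∧
      (|(zP p q r s (c, d, e) (zst p q r s (c, d, e) a0) bs).a| ≤ B ∧
        |(zP p q r s (c, d, e) (zst p q r s (c, d, e) a0) bs).b| ≤ B ∧
        |(zP p q r s (c, d, e) (zst p q r s (c, d, e) a0) bs).be| ≤ B ∧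
        |(zP p q r s (c, d, e) (zst p q r s (c, d, e) a0) bs).yr| ≤ B) ∧
      ∃ D, HasDerivAt (fun t => fP p q r t (c, d, e) (zst p q r t (c, d, e) a0) bs)
        (D * fP p q r s (c, d, e) (zst p q r s (c, d, e) a0) bs) s ∧ D ≤ E := by
    intro s hs0 hs1
    obtain ⟨yd, hyd⟩ := hMov s hs0 hs1
    obtain ⟨i1, i2, i3, D, i4, i5⟩ := hind s hs0 hs1 _ yd j hA
      (fun h => absurd (hfl.symm.trans h) (by simp)) (hj s hs0 hs1).2 hyd
    refine ⟨i1, i2, i3, D, i4, ?_⟩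
    have h5 := (abs_le.1 (hb1 j)).2
    have h6 : 0 ≤ s := h0.trans hs0
    have h6' : s ≤ 2 := hs1.trans h12
    have h61 : 0 < 1 + s := by linarith
    have h62 : 0 ≤ dl * (bs.length : ℝ) := by positivity
    have h63 : D * (1 + s) ≤ 2 * B - dl * bs.length := by linarith
    have h64 : 2 * B - dl * bs.length ≤ E * (1 + s) := by
      rw [hE]
      nlinarith [mul_nonneg h62 (by linarith : (0 : ℝ) ≤ 2 - s), mul_nonneg hB0 h6]
    exact le_of_mul_le_mul_right (h63.trans h64) h61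
  have hanti : AntitoneOn (fun t => fP p q r t (c, d, e) (zst p q r t (c, d, e) a0) bs *
      Real.exp (-(E * t))) (Set.Icc s0 s1) := by
    have hder : ∀ t ∈ Set.Icc s0 s1, ∃ D' : ℝ, D' ≤ 0 ∧ HasDerivAt
        (fun t => fP p q r t (c, d, e) (zst p q r t (c, d, e) a0) bs *
          Real.exp (-(E * t))) D' t := by
      intro t ht
      obtain ⟨-, i2, -, D, i4, i5⟩ := hmain t ht.1 ht.2
      have h7 : HasDerivAt (fun t : ℝ => Real.exp (-(E * t)))
          (Real.exp (-(E * t)) * -(E * 1)) t :=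
        (((hasDerivAt_id t).const_mul E).neg).exp
      refine ⟨_, ?_, i4.mul h7⟩
      have h8 := Real.exp_pos (-(E * t))
      have h9 : D * fP p q r t (c, d, e) (zst p q r t (c, d, e) a0) bs *
            Real.exp (-(E * t)) +
          fP p q r t (c, d, e) (zst p q r t (c, d, e) a0) bs *
            (Real.exp (-(E * t)) * -(E * 1)) =
          (D - E) * (fP p q r t (c, d, e) (zst p q r t (c, d, e) a0) bs *
            Real.exp (-(E * t))) := by ring
      rw [h9]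
      exact mul_nonpos_of_nonpos_of_nonneg (by linarith) (mul_pos i2 h8).le
    apply antitoneOn_of_deriv_nonpos (convex_Icc _ _)
    · intro t ht
      obtain ⟨D', -, h⟩ := hder t ht
      exact h.continuousAt.continuousWithinAt
    · intro t ht
      obtain ⟨D', -, h⟩ := hder t (interior_subset ht)
      exact h.differentiableAt.differentiableWithinAt
    · intro t ht
      obtain ⟨D', h', h⟩ := hder t (interior_subset ht)
      rw [h.deriv]
      exact h'
  intro s hs0 hs1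
  obtain ⟨i1, i2, ⟨b1, b2, b3, b4⟩, -⟩ := hmain s hs0 hs1
  have hexp := Real.exp_pos (2 * B * (s1 - s0))
  have hyr := (hb2 j _ (hj s hs0 hs1).2).2.2.2
  refine ⟨(hY s hs0 hs1).1, i1, i2.le, ?_, by linarith, by linarith, by linarith, by linarith, ?_⟩
  · change |y0 s (kk p q r d e) (kk p q r c d) (kk p q r c e) a0| ≤ _
    have : |y0 s (kk p q r d e) (kk p q r c d) (kk p q r c e) a0| ≤ B := hyr
    linarith
  · intro s' hss' hs1'
    have h10 := hanti ⟨hs0, hs1⟩ ⟨hs0.trans hss', hs1'⟩ hss'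
    simp only at h10
    have h11 : fP p q r s' (c, d, e) (zst p q r s' (c, d, e) a0) bs ≤
        Real.exp (E * (s' - s)) * fP p q r s (c, d, e) (zst p q r s (c, d, e) a0) bs := by
      have h12 : Real.exp (E * (s' - s)) =
          Real.exp (-(E * s)) * Real.exp (E * s') := by
        rw [← Real.exp_add]
        congr 1
        ring
      have h13 := mul_le_mul_of_nonneg_right h10 (Real.exp_pos (E * s')).le
      rw [mul_assoc, ← Real.exp_add, neg_add_cancel, Real.exp_zero, mul_one] at h13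
      rw [h12]
      linarith
    refine h11.trans ?_
    apply mul_le_mul_of_nonneg_right _ i2.le
    have h14 : Real.exp (2 * B * (s' - s)) ≤ Real.exp (2 * B * (s1 - s0)) := by
      apply Real.exp_le_exp.2
      apply mul_le_mul_of_nonneg_left _ (by positivity)
      linarith
    have h15 : Real.exp (E * (s' - s)) = Real.exp (2 * B * (s' - s)) *
        Real.exp (-(dl / 3 * (s' - s) * bs.length)) := by
      rw [← Real.exp_add, hE]
      congr 1
      ring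
    rw [h15]
    apply mul_le_mul_of_nonneg_right _ (Real.exp_pos _).le
    linarith

end Pool.Agent.Helper6.MONO.S
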